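import Mathlib
import Pool.Agent.H54.Plast

namespace Pool.Agent.Results.MP_8e4c55_nt.Yes

open Pool.Agent.H54.Plast

/-- the block alphabet `A_(k)` in base `β` -/
def blk (β : ℂ) (A : Set ℤ) (k : ℕ) : Set ℂ :=
  {x | ∃ a : Fin k → ℤ, (∀ i, a i ∈ A) ∧ x = ∑ i, (a i : ℂ) * β ^ (i : ℕ)}

/-- the sumset `D + D` -/
def dbl (D : Set ℂ) : Set ℂ := {x | ∃ a ∈ D, ∃ b ∈ D, x = a + b}

/-- `φ` is `p`-local for some `p = r + t + 1`: `φ(u)_j = Φ(u_{j+t}, …, u_{j-r})` -/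
def IsLocal {D E : Set ℂ} (φ : (ℤ → D) → (ℤ → E)) : Prop :=
  ∃ (r t : ℕ) (Φ : (Fin (r + t + 1) → D) → E), ∀ u j, φ u j = Φ (fun i => u (j + t - (i : ℕ)))

/-- `φ` is a digit set conversion in base `β` -/
def IsConv (β : ℂ) {D E : Set ℂ} (φ : (ℤ → D) → (ℤ → E)) : Prop :=
  ∀ u, {j | (u j : ℂ) ≠ 0}.Finite →
    {j | (φ u j : ℂ) ≠ 0}.Finite ∧ ∑ᶠ j, (φ u j : ℂ) * β ^ j = ∑ᶠ j, (u j : ℂ) * β ^ j

/-- addition on `A` is `k`-block parallel in base `β` -/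
def BlockParallel (β : ℂ) (A : Set ℤ) (k : ℕ) : Prop :=
  ∃ φ : (ℤ → dbl (blk β A k)) → (ℤ → blk β A k), IsConv (β ^ k) φ ∧ IsLocal φ

lemma of_dbl (g : ℂ) : ∀ (k : ℕ) (x : ℂ), x ∈ dbl (blk g {0, 1} k) → Dig g 2 k x
  | 0, x, ⟨_, ⟨a, _, rfl⟩, _, ⟨b, _, rfl⟩, h⟩ => by simpa [Dig] using h
  | k + 1, _, ⟨_, ⟨a, ha, rfl⟩, _, ⟨b, hb, rfl⟩, rfl⟩ => by
    have h1 : a 0 = 0 ∨ a 0 = 1 := ha 0
    have h2 : b 0 = 0 ∨ b 0 = 1 := hb 0
    refine ⟨_, (a 0 + b 0).toNat, by omega, of_dbl g k _ ⟨_, ⟨fun i => a i.succ, fun i => ha _, rfl⟩, _,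
      ⟨fun i => b i.succ, fun i => hb _, rfl⟩, rfl⟩, ?_⟩
    have e : (((a 0 + b 0).toNat : ℕ) : ℂ) = a 0 + b 0 := by
      rw [← Int.cast_natCast, Int.toNat_of_nonneg (by omega)]; simp
    simp only [Fin.sum_univ_succ, e, mul_add, Finset.mul_sum, Fin.val_succ, pow_succ', Fin.val_zero, pow_zero, mul_left_comm g]
    ring

lemma to_blk (g : ℂ) : ∀ (k : ℕ) (x : ℂ), Dig g 1 k x → x ∈ blk g {0, 1} k
  | 0, x, h => ⟨fun _ => 0, fun _ => by simp, by simpa [Dig] using h⟩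
  | k + 1, _, ⟨y, c, hc, h, rfl⟩ => by
    obtain ⟨a, ha, rfl⟩ := to_blk g k y h
    refine ⟨Fin.cons (c : ℤ) a, fun i => ?_, ?_⟩
    · refine Fin.cases ?_ (fun i => ha i) i
      show (c : ℤ) = 0 ∨ (c : ℤ) = 1
      omega
    · simp only [Fin.sum_univ_succ, Finset.mul_sum, Fin.val_succ, pow_succ', Fin.cons_succ, Fin.cons_zero, mul_left_comm g]
      simp [add_comm]

theorem result : ∃ β : ℂ, β ^ 3 = β + 1 ∧ 1 < ‖β‖ ∧ BlockParallel β {0, 1} 68 := by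
  obtain ⟨x, ⟨x1, _⟩, hx⟩ : ∃ x ∈ Set.Icc (1 : ℝ) 2, x ^ 3 - x - 1 = 0 :=
    intermediate_value_Icc (f := fun x : ℝ => x ^ 3 - x - 1) (by norm_num) (by fun_prop) (by norm_num)
  have hg : (x : ℂ) ^ 3 = x + 1 := by exact_mod_cast (by linarith : x ^ 3 = x + 1)
  refine ⟨x, hg, ?_, ?_⟩
  · rw [Complex.norm_real, Real.norm_of_nonneg (by linarith)]
    refine lt_of_le_of_ne x1 ?_
    rintro rfl; norm_num at hx
  generalize (x : ℂ) = g at hg
  have g0 : g ^ 68 ≠ 0 := pow_ne_zero _ (by rintro rfl; simp at hg)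
  choose Z0 Z1 Y0 Y1 a1 a2 b1 b2 e z using fun w : dbl (blk g {0, 1} 68) => decomp hg w.1 (of_dbl g _ _ w.2)
  refine ⟨fun u j => ⟨_, to_blk g _ _ (glue (a1 (u (j + 1))) (a2 (u j)) (b1 (u j)) (b2 (u (j - 1))))⟩, fun u hu => ?_,
    1, 1, fun v => ⟨_, to_blk g _ _ (glue (a1 (v 0)) (a2 (v 1)) (b1 (v 1)) (b2 (v 2)))⟩, fun u j => ?_⟩
  · generalize g ^ 68 = B at *
    have f1 : {j : ℤ | (u (j + 1) : ℂ) ≠ 0}.Finite := hu.preimage (add_left_injective 1).injOn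
    have f2 : {j : ℤ | (u (j - 1) : ℂ) ≠ 0}.Finite := hu.preimage (sub_left_injective (b := (1 : ℤ))).injOn
    have k : ∀ (F : dbl (blk g {0, 1} 68) → ℂ) (s : ℤ → ℤ) (c : ℤ → ℂ), (∀ w, w.1 = 0 → F w = 0) →
        {j | (u (s j) : ℂ) ≠ 0}.Finite → (Function.support fun j => F (u (s j)) * c j).Finite := fun F s c h1 h2 =>
      h2.subset (fun j hj h => hj (by simp [h1 _ h]))
    refine ⟨(hu.union (f1.union f2)).subset (fun j hj => ?_), ?_⟩
    · by_contra hc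
      simp only [Set.mem_union, Set.mem_ofPred_eq, not_or, not_not] at hc
      exact hj (by simp [z _ hc.1, z _ hc.2.1, z _ hc.2.2])
    · have p1 := fun w (h : w.1 = 0) => (by simp [z w h] : g * Y1 w = 0)
      have p2 := fun w (h : w.1 = 0) => (by simp [z w h] : Z1 w + g ^ 13 * Y0 w = 0)
      have p3 := fun w (h : w.1 = 0) => (by simp [z w h] : g ^ 48 * Z0 w = 0)
      have s1 := finsum_comp_equiv (Equiv.subRight (1 : ℤ)) (f := fun j => g * Y1 (u j) * B ^ (j + 1))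
      have s3 := finsum_comp_equiv (Equiv.addRight (1 : ℤ)) (f := fun j => g ^ 48 * Z0 (u j) * B ^ (j - 1))
      simp only [Equiv.subRight_apply, Equiv.coe_addRight, sub_add_cancel, add_sub_cancel_right] at s1 s3
      simp only [add_mul (_ + _ : ℂ) (g ^ 48 * _), add_mul (g * _)]
      have q := fun (c : ℤ → ℂ) => k _ (fun j => j) c p2 hu
      rw [finsum_add_distrib, finsum_add_distrib (k _ _ _ p1 f2) (q _), s1, s3,
        ← finsum_add_distrib (k _ (fun j => j) _ p1 hu) (q _), ← finsum_add_distrib]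
      · refine finsum_congr (fun j => ?_)
        rw [zpow_add_one₀ g0, zpow_sub_one₀ g0]
        have := e (u j)
        field_simp
        linear_combination -this
      · exact ((k _ (fun j => j) _ p1 hu).union (q _)).subset (Function.support_add _ _)
      · exact k _ (fun j => j) _ p3 hu
      · exact ((k _ _ _ p1 f2).union (q _)).subset (Function.support_add _ _)
      · exact k _ _ _ p3 f1
  · simp only [Subtype.mk.injEq]
    have e1 : j + (1 : ℕ) - ((0 : Fin (1 + 1 + 1)) : ℕ) = j + 1 := by simp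
    have e2 : j + (1 : ℕ) - ((1 : Fin (1 + 1 + 1)) : ℕ) = j := by simp
    have e3 : j + (1 : ℕ) - ((2 : Fin (1 + 1 + 1)) : ℕ) = j - 1 := by
      rw [show ((2 : Fin (1 + 1 + 1)) : ℕ) = 2 from rfl]; push_cast; ring
    rw [e1, e2, e3]

end Pool.Agent.Results.MP_8e4c55_nt.Yes
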